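import Mathlib

set_option autoImplicit false
set_option maxHeartbeats 4000000

/-!
# Nonlinearity of the ortho-derivative of a quadratic APN function

We prove: for `n ≥ 3` there is a quadratic APN function `F` on `F_2^n` whose ortho-derivative
has nonlinearity `0` if and only if `n = 3`.
-/

namespace Pool.Agent.Results.MP_4cfb12_co.OrthoDerivativeNL

open Finset

/-- The vector space `F_2^n`. -/
abbrev V (n : ℕ) := Fin n → ZMod 2

/-- `F` is almost perfect nonlinear: for `a ≠ 0` and every `b` the equation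
`F (x + a) + F x = b` has at most two solutions. -/
def IsAPN {n : ℕ} (F : V n → V n) : Prop :=
  ∀ a : V n, a ≠ 0 → ∀ b : V n, (univ.filter fun x => F (x + a) + F x = b).card ≤ 2

/-- All monomials of the (multilinear) coordinate polynomials of `F` have at most `d` variables:
the algebraic degree of `F` is at most `d`. -/
def AlgDegLE {n : ℕ} (F : V n → V n) (d : ℕ) : Prop :=
  ∃ c : Fin n → Finset (Fin n) → ZMod 2,
    (∀ j S, d < S.card → c j S = 0) ∧ ∀ x j, F x j = ∑ S, c j S * ∏ i ∈ S, x i

/-- `F` is quadratic: its algebraic degree equals `2`. -/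
def IsQuadratic {n : ℕ} (F : V n → V n) : Prop := AlgDegLE F 2 ∧ ¬ AlgDegLE F 1

/-- The derivative `D_a F (x) = F (x + a) + F x`. -/
def deriv {n : ℕ} (F : V n → V n) (a x : V n) : V n := F (x + a) + F x

open Classical in
/-- The ortho-derivative: `0` at `0`, and at `a ≠ 0` the nonzero vector `v` with
`v · y = 0` for all `y` in `{D_a F (x) + D_a F (0)}`. For a quadratic APN function this vector
exists and is unique, see `orthoDerivative_spec` and `ortho_unique` below.
(The value is `0` where no such vector exists, which does not happen for quadratic APN `F`.) -/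
noncomputable def orthoDerivative {n : ℕ} (F : V n → V n) : V n → V n := fun a =>
  if h : a ≠ 0 ∧ ∃ v : V n, v ≠ 0 ∧ ∀ x, v ⬝ᵥ (deriv F a x + deriv F a 0) = 0 then
    Classical.choose h.2 else 0

/-- Nonlinearity: the minimum over `b ≠ 0` and over affine functions `x ↦ u · x + c` of the number
of `x` with `b · G x ≠ u · x + c`. -/
noncomputable def NL {n : ℕ} (G : V n → V n) : ℕ :=
  sInf {k | ∃ b : V n, b ≠ 0 ∧ ∃ (u : V n) (c : ZMod 2),
    k = (univ.filter fun x => b ⬝ᵥ G x ≠ u ⬝ᵥ x + c).card}

/-! ### Elementary facts -/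

lemma z2 (x : ZMod 2) : x + x = 0 := by revert x; decide
lemma z2' (x : ZMod 2) : x * x = x := by revert x; decide
lemma z2eq (x : ZMod 2) : x = 0 ∨ x = 1 := by revert x; decide
lemma v2 {n : ℕ} (x : V n) : x + x = 0 := by funext i; exact z2 _

lemma add_eq_zero_v {n : ℕ} {x y : V n} (h : x + y = 0) : x = y := by
  have := congrArg (fun z => z + y) h
  simpa [add_assoc, v2] using this

/-- the bilinear form attached to `F` -/
def B {n : ℕ} (F : V n → V n) (a x : V n) : V n := F (x + a) + F x + (F a + F 0)

lemma B_eq {n : ℕ} (F : V n → V n) (a x : V n) : B F a x = deriv F a x + deriv F a 0 := by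
  simp [B, deriv]

lemma B_comm {n : ℕ} (F : V n → V n) (a x : V n) : B F a x = B F x a := by
  simp only [B, add_comm x a]; abel

lemma B_zero {n : ℕ} (F : V n → V n) (a : V n) : B F a 0 = 0 := by
  rw [B_eq]; exact v2 _

lemma B_self {n : ℕ} (F : V n → V n) (a : V n) : B F a a = 0 := by
  have : B F a a = F 0 + F a + (F a + F 0) := by simp only [B, v2]
  rw [this]
  calc F 0 + F a + (F a + F 0) = (F 0 + F 0) + (F a + F a) := by abel
    _ = 0 := by rw [v2, v2, add_zero]

/-- monomials of degree at most two have a biadditive second difference -/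
lemma mono_add {n : ℕ} (S : Finset (Fin n)) (hS : S.card ≤ 2) (a x y : V n) :
    (∏ i ∈ S, (x + y + a) i + ∏ i ∈ S, (x + y) i + (∏ i ∈ S, a i + ∏ i ∈ S, (0 : V n) i)) =
    (∏ i ∈ S, (x + a) i + ∏ i ∈ S, x i + (∏ i ∈ S, a i + ∏ i ∈ S, (0 : V n) i)) +
    (∏ i ∈ S, (y + a) i + ∏ i ∈ S, y i + (∏ i ∈ S, a i + ∏ i ∈ S, (0 : V n) i)) := by
  have h : S.card = 0 ∨ S.card = 1 ∨ S.card = 2 := by omega
  rcases h with h | h | h
  · rw [card_eq_zero] at h
    subst h
    simp only [prod_empty]; decide
  · rw [card_eq_one] at h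
    obtain ⟨i, rfl⟩ := h
    simp only [prod_singleton, Pi.add_apply, Pi.zero_apply]
    generalize x i = p; generalize y i = q; generalize a i = r
    revert p q r; decide
  · rw [card_eq_two] at h
    obtain ⟨i, j, hij, rfl⟩ := h
    simp only [prod_pair hij, Pi.add_apply, Pi.zero_apply]
    generalize x i = p; generalize y i = q; generalize a i = r
    generalize x j = p'; generalize y j = q'; generalize a j = r'
    revert p q r p' q' r'; decide

lemma B_add {n : ℕ} {F : V n → V n} (hF : AlgDegLE F 2) (a x y : V n) :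
    B F a (x + y) = B F a x + B F a y := by
  obtain ⟨c, hc, hF⟩ := hF
  funext j
  simp only [B, Pi.add_apply, hF, ← sum_add_distrib]
  apply sum_congr rfl
  intro S _
  by_cases hS : S.card ≤ 2
  · have := mono_add S hS a x y
    simp only [Pi.add_apply] at this
    linear_combination (c j S) * this
  · rw [hc j S (by omega)]; ring

lemma B_inj {n : ℕ} {F : V n → V n} (hA : IsAPN F) {a : V n} (ha : a ≠ 0) {x y : V n}
    (h : B F a x = B F a y) : x = y ∨ x = y + a := by
  by_contra hcon
  push Not at hcon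
  have h1 : F (x + a) + F x = F (y + a) + F y := by
    simpa [B] using h
  have h2 := hA a ha (F (y + a) + F y)
  have hsub : ({x, y, y + a} : Finset (V n)) ⊆ univ.filter fun z => F (z + a) + F z = F (y + a) + F y := by
    intro z hz
    simp only [mem_insert, mem_singleton] at hz
    simp only [mem_filter, mem_univ, true_and]
    rcases hz with rfl | rfl | rfl
    · exact h1
    · rfl
    · rw [add_assoc, v2, add_zero, add_comm]
  have hc3 : ({x, y, y + a} : Finset (V n)).card = 3 := by
    rw [card_insert_of_notMem, card_insert_of_notMem, card_singleton]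
    · simp only [mem_singleton]
      intro h; apply ha
      have := h.symm
      rwa [add_eq_left] at this
    · simp only [mem_insert, mem_singleton]; tauto
  have := card_le_card hsub
  omega

/-- a nonzero linear functional is balanced -/
lemma card_dual {n : ℕ} {v : V n} (hv : v ≠ 0) :
    2 * (univ.filter fun y : V n => v ⬝ᵥ y = 0).card = 2 ^ n := by
  obtain ⟨i, hi⟩ : ∃ i, v i ≠ 0 := by
    by_contra h; push Not at h; exact hv (funext h)
  have hi1 : v i = 1 := (z2eq (v i)).resolve_left hi
  have h1 : (univ.filter fun y : V n => v ⬝ᵥ y = 0).card = (univ.filter fun y : V n => ¬ v ⬝ᵥ y = 0).card := by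
    apply card_bij (fun y _ => y + Pi.single i 1)
    · intro y hy
      simp only [mem_filter, mem_univ, true_and] at hy ⊢
      rw [dotProduct_add, hy, dotProduct_single, hi1]; decide
    · intro y _ z _ h; exact add_right_cancel h
    · intro y hy
      simp only [mem_filter, mem_univ, true_and] at hy ⊢
      refine ⟨y + Pi.single i 1, ?_, ?_⟩
      · rw [dotProduct_add, (z2eq _).resolve_left hy, dotProduct_single, hi1]; decide
      · rw [add_assoc, v2, add_zero]
  have h2 := card_filter_add_card_filter_not (s := (univ : Finset (V n))) (fun y : V n => v ⬝ᵥ y = 0)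
  have h3 : (univ : Finset (V n)).card = 2 ^ n := by
    rw [card_univ, Fintype.card_fun, ZMod.card, Fintype.card_fin]
  rw [h3] at h2
  omega

/-- the image of `B F a` has at least `2^(n-1)` elements -/
lemma card_image_B {n : ℕ} {F : V n → V n} (hA : IsAPN F) {a : V n} (ha : a ≠ 0) :
    2 ^ n ≤ 2 * (univ.image (B F a)).card := by
  have h3 : (univ : Finset (V n)).card = 2 ^ n := by
    rw [card_univ, Fintype.card_fun, ZMod.card, Fintype.card_fin]
  rw [← h3]
  apply card_le_mul_card_image
  intro b hb
  rw [mem_image] at hb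
  obtain ⟨y, -, rfl⟩ := hb
  calc (univ.filter fun x => B F a x = B F a y).card ≤ ({y, y + a} : Finset (V n)).card := by
        apply card_le_card
        intro x hx
        simp only [mem_filter, mem_univ, true_and] at hx
        rcases B_inj hA ha hx with h | h
        · simp [h]
        · simp [h]
    _ ≤ 2 := card_le_two

/-- if `v ≠ 0` is orthogonal to all `B F a x` then every vector orthogonal to `v` is of that form -/
lemma surj_of_ortho {n : ℕ} {F : V n → V n} (hA : IsAPN F) {a : V n} (ha : a ≠ 0)
    {v : V n} (hv : v ≠ 0) (h : ∀ x, v ⬝ᵥ B F a x = 0) {b : V n} (hb : v ⬝ᵥ b = 0) :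
    ∃ x, B F a x = b := by
  have hsub : univ.image (B F a) ⊆ univ.filter fun y : V n => v ⬝ᵥ y = 0 := by
    intro y hy
    rw [mem_image] at hy
    obtain ⟨x, -, rfl⟩ := hy
    simp [h x]
  have h1 := card_image_B hA ha
  have h2 := card_dual hv
  have heq := eq_of_subset_of_card_le hsub (by omega)
  have : b ∈ univ.image (B F a) := by rw [heq]; simp [hb]
  rw [mem_image] at this
  obtain ⟨x, -, hx⟩ := this
  exact ⟨x, hx⟩

/-- the vector defining the ortho-derivative is unique -/
lemma ortho_unique {n : ℕ} {F : V n → V n} (hA : IsAPN F) {a : V n} (ha : a ≠ 0)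
    {v w : V n} (hv : v ≠ 0) (h : ∀ x, v ⬝ᵥ B F a x = 0) (hw : w ≠ 0) (h' : ∀ x, w ⬝ᵥ B F a x = 0) :
    v = w := by
  have key : ∀ b : V n, v ⬝ᵥ b = 0 → w ⬝ᵥ b = 0 := by
    intro b hb
    obtain ⟨x, rfl⟩ := surj_of_ortho hA ha hv h hb
    exact h' x
  have key' : ∀ b : V n, w ⬝ᵥ b = 0 → v ⬝ᵥ b = 0 := by
    intro b hb
    obtain ⟨x, rfl⟩ := surj_of_ortho hA ha hw h' hb
    exact h x
  funext i
  have h1 := key (Pi.single i 1)
  have h2 := key' (Pi.single i 1)
  rw [dotProduct_single, dotProduct_single, mul_one, mul_one] at h1 h2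
  rcases z2eq (v i) with hv | hv <;> rcases z2eq (w i) with hw | hw
  · rw [hv, hw]
  · exact absurd (h1 hv) (by rw [hw]; decide)
  · exact absurd (h2 hw) (by rw [hv]; decide)
  · rw [hv, hw]


lemma exists_ortho {n : ℕ} {F : V n → V n} (hF : AlgDegLE F 2) {a : V n} (ha : a ≠ 0) :
    ∃ v : V n, v ≠ 0 ∧ ∀ x, v ⬝ᵥ B F a x = 0 := by
  let L : V n →ₗ[ZMod 2] V n :=
    (AddMonoidHom.mk' (B F a) (fun x y => B_add hF a x y)).toZModLinearMap 2
  have hL : ∀ x, L x = B F a x := fun x => rfl
  let M := LinearMap.toMatrix' L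
  have hM : ∀ x, M.mulVec x = B F a x := fun x => by
    rw [← hL]; exact LinearMap.toMatrix'_mulVec L x
  have h1 : ∃ w ≠ 0, M.mulVec w = 0 := ⟨a, ha, by rw [hM, B_self]⟩
  rw [Matrix.exists_mulVec_eq_zero_iff, ← Matrix.exists_vecMul_eq_zero_iff] at h1
  obtain ⟨v, hv, hv2⟩ := h1
  refine ⟨v, hv, fun x => ?_⟩
  rw [← hM, Matrix.dotProduct_mulVec, hv2, zero_dotProduct]

lemma orthoDerivative_zero {n : ℕ} (F : V n → V n) : orthoDerivative F 0 = 0 := by
  simp [orthoDerivative]

/-- For `F` of degree at most two, the ortho-derivative has its defining property. -/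
lemma orthoDerivative_spec {n : ℕ} {F : V n → V n} (hF : AlgDegLE F 2) {a : V n} (ha : a ≠ 0) :
    orthoDerivative F a ≠ 0 ∧ ∀ x, orthoDerivative F a ⬝ᵥ B F a x = 0 := by
  have h : a ≠ 0 ∧ ∃ v : V n, v ≠ 0 ∧ ∀ x, v ⬝ᵥ (deriv F a x + deriv F a 0) = 0 := by
    refine ⟨ha, ?_⟩
    obtain ⟨v, hv, hv2⟩ := exists_ortho hF ha
    exact ⟨v, hv, fun x => by rw [← B_eq]; exact hv2 x⟩
  have h2 := Classical.choose_spec h.2
  unfold orthoDerivative
  rw [dif_pos h]
  exact ⟨h2.1, fun x => by rw [B_eq]; exact h2.2 x⟩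

/-! ### Sums over the space -/

/-- a monomial that misses a variable sums to zero -/
lemma sum_mono {n : ℕ} (S : Finset (Fin n)) (hS : S.card < n) : ∑ x : V n, ∏ i ∈ S, x i = 0 := by
  obtain ⟨k, hk⟩ : ∃ k, k ∉ S := by
    by_contra h
    push Not at h
    have : S = univ := by ext; simp [h]
    rw [this, card_univ, Fintype.card_fin] at hS
    omega
  have hinv : ∀ x : V n, x + Pi.single k 1 + Pi.single k 1 = x := fun x => by
    rw [add_assoc, v2, add_zero]
  refine sum_involution (fun (x : V n) _ => x + Pi.single k 1) ?_ ?_ ?_ ?_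
  · intro x _
    have : ∏ i ∈ S, (x + Pi.single k 1 : V n) i = ∏ i ∈ S, x i := by
      apply prod_congr rfl
      intro i hi
      have : i ≠ k := fun h => hk (h ▸ hi)
      simp [this]
    rw [this]; exact z2 _
  · intro x _ _ h
    rw [add_eq_left] at h
    have := congrFun h k
    simp at this
  · intro x _; exact mem_univ _
  · intro x _; exact hinv x

lemma prod_insert_mul {n : ℕ} (S : Finset (Fin n)) (k : Fin n) (x : V n) :
    (∏ i ∈ S, x i) * x k = ∏ i ∈ insert k S, x i := by
  by_cases hk : k ∈ S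
  · rw [insert_eq_of_mem hk, ← mul_prod_erase S x hk, mul_comm (x k), mul_assoc, z2']
  · rw [prod_insert hk, mul_comm]

/-- a function of degree at most two sums to zero over a hyperplane (or the whole space),
if the dimension is at least four -/
lemma sum_hyper {n : ℕ} (hn : 4 ≤ n) {F : V n → V n} (hF : AlgDegLE F 2) (u : V n) :
    ∑ x ∈ univ.filter (fun x : V n => u ⬝ᵥ x = 0), F x = 0 := by
  obtain ⟨c, hc, hF⟩ := hF
  funext j
  rw [Finset.sum_apply, sum_filter]
  have h1 : ∀ x : V n, (if u ⬝ᵥ x = 0 then F x j else 0) = F x j + ∑ k, u k * (F x j * x k) := by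
    intro x
    have : ∑ k, u k * (F x j * x k) = (u ⬝ᵥ x) * F x j := by
      rw [dotProduct, sum_mul]; apply sum_congr rfl; intros; ring
    rw [this]
    rcases z2eq (u ⬝ᵥ x) with h | h
    · rw [if_pos h, h]; ring
    · rw [if_neg (by rw [h]; decide), h, one_mul, z2]
  rw [sum_congr rfl (fun x _ => h1 x), sum_add_distrib]
  have h2 : ∑ x : V n, F x j = 0 := by
    simp only [hF]
    rw [sum_comm]
    apply sum_eq_zero
    intro S _
    rw [← mul_sum]
    by_cases hS : S.card ≤ 2
    · rw [sum_mono S (by omega), mul_zero]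
    · rw [hc j S (by omega), zero_mul]
  have h3 : ∑ x : V n, ∑ k, u k * (F x j * x k) = 0 := by
    rw [sum_comm]
    apply sum_eq_zero
    intro k _
    rw [← mul_sum]
    have : ∑ x : V n, F x j * x k = 0 := by
      simp only [hF, sum_mul]
      rw [sum_comm]
      apply sum_eq_zero
      intro S _
      by_cases hS : S.card ≤ 2
      · have : ∀ x : V n, c j S * (∏ i ∈ S, x i) * x k = c j S * ∏ i ∈ insert k S, x i := by
          intro x; rw [mul_assoc, prod_insert_mul]
        rw [sum_congr rfl (fun x _ => this x), ← mul_sum, sum_mono, mul_zero]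
        have := card_insert_le k S
        omega
      · rw [hc j S (by omega)]; simp
    rw [this, mul_zero]
  rw [h2, h3]; rfl

/-- the key contradiction: no nonzero component of the ortho-derivative is affine for `n ≥ 4` -/
lemma no_affine {n : ℕ} (hn : 4 ≤ n) {F : V n → V n} (hF : AlgDegLE F 2) (hA : IsAPN F)
    {b : V n} (hb : b ≠ 0) (u : V n) (h : ∀ x, b ⬝ᵥ orthoDerivative F x = u ⬝ᵥ x) : False := by
  -- solutions of `B F a x = b`
  have hex : ∀ a : V n, a ≠ 0 → u ⬝ᵥ a = 0 → ∃ x, B F a x = b := by
    intro a ha hua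
    obtain ⟨h1, h2⟩ := orthoDerivative_spec hF ha
    exact surj_of_ortho hA ha h1 h2 (by rw [dotProduct_comm, h a, hua])
  have hback : ∀ a x : V n, a ≠ 0 → B F a x = b → u ⬝ᵥ a = 0 := by
    intro a x ha hax
    obtain ⟨h1, h2⟩ := orthoDerivative_spec hF ha
    rw [← h a, dotProduct_comm, ← hax]; exact h2 x
  set A : Finset (V n) := univ.filter (fun a => a ≠ 0 ∧ u ⬝ᵥ a = 0) with hAdef
  let cls : V n → Finset (V n) := fun a => A.filter (fun x => x = a ∨ B F a x = b)
  have hcls : ∀ a ∈ A, ∃ x, x ≠ 0 ∧ x ≠ a ∧ x ∈ A ∧ (a + x) ∈ A ∧ B F a x = b ∧ cls a = {a, x, a + x} := by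
    intro a ha
    simp only [hAdef, mem_filter, mem_univ, true_and] at ha
    obtain ⟨ha0, hua⟩ := ha
    obtain ⟨x, hx⟩ := hex a ha0 hua
    have hx0 : x ≠ 0 := by
      rintro rfl; rw [B_zero] at hx; exact hb hx.symm
    have hxa : x ≠ a := by
      rintro rfl; rw [B_self] at hx; exact hb hx.symm
    have hax0 : a + x ≠ 0 := fun h => hxa (add_eq_zero_v h).symm
    have hux : u ⬝ᵥ x = 0 := hback x a hx0 (by rw [B_comm]; exact hx)
    have hxA : x ∈ A := by
      simp only [hAdef, mem_filter, mem_univ, true_and]; exact ⟨hx0, hux⟩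
    have haxA : a + x ∈ A := by
      simp only [hAdef, mem_filter, mem_univ, true_and]
      exact ⟨hax0, by rw [dotProduct_add, hua, hux, add_zero]⟩
    have hax : B F a (a + x) = b := by rw [B_add hF, B_self, zero_add, hx]
    refine ⟨x, hx0, hxa, hxA, haxA, hx, ?_⟩
    ext y
    simp only [cls, mem_filter, mem_insert, mem_singleton]
    constructor
    · rintro ⟨-, rfl | hy⟩
      · exact Or.inl rfl
      · rcases B_inj hA ha0 (hy.trans hx.symm) with h | h
        · exact Or.inr (Or.inl h)
        · exact Or.inr (Or.inr (by rw [h, add_comm]))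
    · rintro (rfl | rfl | rfl)
      · refine ⟨?_, Or.inl rfl⟩
        simp only [hAdef, mem_filter, mem_univ, true_and]; exact ⟨ha0, hua⟩
      · exact ⟨hxA, Or.inr hx⟩
      · exact ⟨haxA, Or.inr hax⟩
  -- classes are disjoint or equal
  have hcard3 : ∀ a ∈ A, (cls a).card = 3 := by
    intro a ha
    obtain ⟨x, hx0, hxa, -, -, -, hcl⟩ := hcls a ha
    have ha0 : a ≠ 0 := by
      simp only [hAdef, mem_filter, mem_univ, true_and] at ha; exact ha.1
    rw [hcl, card_insert_of_notMem, card_insert_of_notMem, card_singleton]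
    · rw [mem_singleton]
      intro h
      exact ha0 (by simpa using h.symm)
    · simp only [mem_insert, mem_singleton]
      rintro (h | h)
      · exact hxa h.symm
      · exact hx0 (by simpa using h.symm)
  have hcls_eq : ∀ a ∈ A, ∀ y ∈ cls a, cls y = cls a := by
    intro a ha y hy
    have hyA : y ∈ A := (mem_filter.mp hy).1
    obtain ⟨x, hx0, hxa, hxA, haxA, hx, hcl⟩ := hcls a ha
    have h1 : B F x a = b := by rw [B_comm]; exact hx
    have h2 : B F a (a + x) = b := by rw [B_add hF, B_self, zero_add, hx]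
    have h3 : B F x (a + x) = b := by rw [B_add hF, B_self, add_zero, h1]
    have h2' : B F (a + x) a = b := by rw [B_comm]; exact h2
    have h3' : B F (a + x) x = b := by rw [B_comm]; exact h3
    symm
    apply eq_of_subset_of_card_le
    · intro z hz
      have hzA : z ∈ A := (mem_filter.mp hz).1
      rw [hcl] at hy hz
      simp only [mem_insert, mem_singleton] at hy hz
      simp only [cls, mem_filter]
      refine ⟨hzA, ?_⟩
      rcases hy with rfl | rfl | rfl <;> rcases hz with rfl | rfl | rfl <;> simp_all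
    · rw [hcard3 a ha, hcard3 y hyA]
  have hfib : ∀ t ∈ A.image cls, A.filter (fun y => cls y = t) = t := by
    intro t ht
    rw [mem_image] at ht
    obtain ⟨a, ha, rfl⟩ := ht
    ext y
    rw [mem_filter]
    constructor
    · rintro ⟨hy, hya⟩
      rw [← hya]
      simp only [cls, mem_filter]
      exact ⟨hy, Or.inl trivial⟩
    · intro hy
      exact ⟨(mem_filter.mp hy).1, hcls_eq a ha y hy⟩
  -- number of classes
  have hAcard : A.card = 3 * (A.image cls).card := by
    rw [card_eq_sum_card_image cls A]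
    rw [sum_congr rfl (fun t ht => by rw [hfib t ht])]
    rw [sum_congr rfl (g := fun _ => 3)]
    · rw [sum_const, smul_eq_mul, mul_comm]
    · intro t ht
      rw [mem_image] at ht
      obtain ⟨a, ha, rfl⟩ := ht
      exact hcard3 a ha
  have hAsum : ∑ a ∈ A, F a = (A.image cls).card • (b + F 0) := by
    rw [← sum_fiberwise_of_maps_to (g := cls) (fun a ha => mem_image_of_mem _ ha) F]
    rw [← sum_const]
    apply sum_congr rfl
    intro t ht
    rw [hfib t ht]
    rw [mem_image] at ht
    obtain ⟨a, ha, rfl⟩ := ht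
    obtain ⟨x, hx0, hxa, hxA, haxA, hx, hcl⟩ := hcls a ha
    have ha0 : a ≠ 0 := by
      simp only [hAdef, mem_filter, mem_univ, true_and] at ha; exact ha.1
    rw [hcl, sum_insert, sum_insert, sum_singleton, ← hx]
    · simp only [B]
      rw [add_comm x a]
      have : F (a + x) + F x + (F a + F 0) + F 0 = F a + (F x + F (a + x)) + (F 0 + F 0) := by abel
      rw [this, v2, add_zero]
    · rw [mem_singleton]
      intro h
      exact ha0 (by simpa using h.symm)
    · simp only [mem_insert, mem_singleton]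
      rintro (h | h)
      · exact hxa h.symm
      · exact hx0 (by simpa using h.symm)
  -- the hyperplane
  have hU : univ.filter (fun x : V n => u ⬝ᵥ x = 0) = insert 0 A := by
    ext x
    simp only [hAdef, mem_filter, mem_univ, true_and, mem_insert]
    constructor
    · intro h
      by_cases hx : x = 0
      · exact Or.inl hx
      · exact Or.inr ⟨hx, h⟩
    · rintro (rfl | h)
      · exact dotProduct_zero u
      · exact h.2
  have h0A : (0 : V n) ∉ A := by simp [hAdef]
  have hUcard : Even (univ.filter (fun x : V n => u ⬝ᵥ x = 0)).card := by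
    by_cases hu : u = 0
    · have : univ.filter (fun x : V n => u ⬝ᵥ x = 0) = univ := by
        ext x; simp [hu]
      rw [this, card_univ, Fintype.card_fun, ZMod.card, Fintype.card_fin]
      exact (Nat.even_pow).mpr ⟨even_two, by omega⟩
    · have h1 := card_dual hu
      obtain ⟨m, rfl⟩ : ∃ m, n = m + 2 := ⟨n - 2, by omega⟩
      rw [pow_succ, pow_succ] at h1
      exact ⟨2 ^ m, by omega⟩
  rw [hU, card_insert_of_notMem h0A, hAcard] at hUcard
  have hodd : Odd (A.image cls).card := by
    by_contra hcon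
    rw [Nat.not_odd_iff_even] at hcon
    have : Even (3 * (A.image cls).card) := hcon.mul_left 3
    rw [Nat.even_add_one] at hUcard
    exact hUcard this
  have hsum := sum_hyper hn hF u
  rw [hU, sum_insert h0A, hAsum] at hsum
  obtain ⟨m, hm⟩ := hodd
  rw [hm, add_smul, one_smul, mul_comm, mul_smul, two_smul, v2, smul_zero, zero_add] at hsum
  apply hb
  have : F 0 + (b + F 0) = b + (F 0 + F 0) := by abel
  rw [this, v2, add_zero] at hsum
  exact hsum

/-! ### The case `n = 3` -/

/-- the cross-product function `(x_1 x_2, x_0 x_2, x_0 x_1)` -/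
def F3 : V 3 → V 3 := fun x => ![x 1 * x 2, x 0 * x 2, x 0 * x 1]

lemma F3_apn : IsAPN F3 := by
  unfold IsAPN F3
  decide +kernel

lemma F3_deg : AlgDegLE F3 2 := by
  refine ⟨fun j S => if S = univ.erase j then 1 else 0, ?_, ?_⟩
  · intro j S hS
    apply if_neg
    rintro rfl
    rw [card_erase_of_mem (mem_univ j)] at hS
    simp at hS
  · intro x j
    have : ∑ S, (if S = univ.erase j then (1 : ZMod 2) else 0) * ∏ i ∈ S, x i = ∏ i ∈ univ.erase j, x i := by
      rw [sum_eq_single (univ.erase j)]
      · simp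
      · intro S _ hS; rw [if_neg hS, zero_mul]
      · intro h; exact absurd (mem_univ _) h
    rw [this]
    fin_cases j
    · have : (univ.erase (0 : Fin 3)) = {1, 2} := by decide
      simp [F3, this]
    · have : (univ.erase (1 : Fin 3)) = {0, 2} := by decide
      simp [F3, this]
    · have : (univ.erase (2 : Fin 3)) = {0, 1} := by decide
      simp [F3, this]

lemma mono_add1 {n : ℕ} (S : Finset (Fin n)) (hS : S.card ≤ 1) (x y : V n) :
    (∏ i ∈ S, (x + y) i + ∏ i ∈ S, x i + (∏ i ∈ S, y i + ∏ i ∈ S, (0 : V n) i)) = 0 := by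
  have h : S.card = 0 ∨ S.card = 1 := by omega
  rcases h with h | h
  · rw [card_eq_zero] at h
    subst h
    simp only [prod_empty]; decide
  · rw [card_eq_one] at h
    obtain ⟨i, rfl⟩ := h
    simp only [prod_singleton, Pi.add_apply, Pi.zero_apply]
    generalize x i = p; generalize y i = q
    revert p q; decide

lemma B_eq_zero_of_deg_one {n : ℕ} {F : V n → V n} (hF : AlgDegLE F 1) (a x : V n) :
    B F a x = 0 := by
  obtain ⟨c, hc, hF⟩ := hF
  funext j
  simp only [B, Pi.add_apply, hF, ← sum_add_distrib, Pi.zero_apply]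
  apply sum_eq_zero
  intro S _
  by_cases hS : S.card ≤ 1
  · have := mono_add1 S hS x a
    simp only [Pi.add_apply, Pi.zero_apply] at this
    linear_combination (c j S) * this
  · rw [hc j S (by omega)]; ring

lemma F3_quadratic : IsQuadratic F3 := by
  refine ⟨F3_deg, fun h => ?_⟩
  have := B_eq_zero_of_deg_one h ![1, 0, 0] ![0, 1, 0]
  revert this
  unfold B F3
  decide

lemma F3_self : ∀ a x : V 3, a ⬝ᵥ B F3 a x = 0 := by
  unfold B F3
  decide +kernel

lemma F3_ortho (a : V 3) : orthoDerivative F3 a = a := by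
  by_cases ha : a = 0
  · rw [ha, orthoDerivative_zero]
  · obtain ⟨h1, h2⟩ := orthoDerivative_spec F3_deg ha
    exact ortho_unique F3_apn ha h1 h2 ha (F3_self a)

/-- **Main theorem.** For `n ≥ 3` there is a quadratic APN function on `F_2^n` whose
ortho-derivative has nonlinearity zero if and only if `n = 3`. -/
theorem result (n : ℕ) (hn : 3 ≤ n) :
    (∃ F : V n → V n, IsQuadratic F ∧ IsAPN F ∧ NL (orthoDerivative F) = 0) ↔ n = 3 := by
  constructor
  · rintro ⟨F, ⟨hF, -⟩, hA, hNL⟩
    by_contra hne
    have hn4 : 4 ≤ n := by omega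
    have hmem : (0 : ℕ) ∈ {k | ∃ b : V n, b ≠ 0 ∧ ∃ (u : V n) (c : ZMod 2),
        k = (univ.filter fun x => b ⬝ᵥ orthoDerivative F x ≠ u ⬝ᵥ x + c).card} := by
      rw [← hNL]
      apply Nat.sInf_mem
      refine ⟨_, Pi.single ⟨0, by omega⟩ 1, ?_, 0, 0, rfl⟩
      intro h
      have := congrFun h ⟨0, by omega⟩
      simp at this
    obtain ⟨b, hb, u, c, hk⟩ := hmem
    have hall : ∀ x, b ⬝ᵥ orthoDerivative F x = u ⬝ᵥ x + c := by
      intro x
      by_contra hx
      have hpos : 0 < (univ.filter fun x => b ⬝ᵥ orthoDerivative F x ≠ u ⬝ᵥ x + c).card :=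
        card_pos.mpr ⟨x, by simpa using hx⟩
      omega
    have hc : c = 0 := by
      have := hall 0
      rw [orthoDerivative_zero, dotProduct_zero, dotProduct_zero, zero_add] at this
      exact this.symm
    exact no_affine hn4 hF hA hb u (fun x => by rw [hall x, hc, add_zero])
  · rintro rfl
    refine ⟨F3, F3_quadratic, F3_apn, ?_⟩
    apply Nat.sInf_eq_zero.mpr
    left
    refine ⟨Pi.single 0 1, ?_, Pi.single 0 1, 0, ?_⟩
    · intro h
      have := congrFun h 0
      simp at this
    · symm
      rw [card_eq_zero, filter_eq_empty_iff]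
      intro x _
      rw [F3_ortho, add_zero, not_not]

end Pool.Agent.Results.MP_4cfb12_co.OrthoDerivativeNL
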